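import Pool.Agent.H31.G5.Main

/-!
# Curves of genus five over the maximal solvable extension of the rationals

`K` is the field of the frozen statement S17763, the compositum of all finite solvable Galois
extensions of `ℚ`. Let `X` be the intersection of three quadrics in the projective four-space
over `K` and suppose that `X` is a smooth curve at its `K`-points (for instance the canonical
model of a curve of genus five which is neither hyperelliptic nor trigonal). Then `X` has
infinitely many `K`-points, or at most two; and if it has one or two `K`-points only, then some
hyperplane over `K` meets `X` in these points only.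

The proof: a hyperplane over `K` whose intersection with `X` contains a divisor of degree four
supported in `K`-points meets `X` in `K`-points only, because the residual divisor has degree four
and equations of degree at most four split over `K`. So in the finite case the `N` points of `X`
with the hyperplane sections supported in them form a combinatorial structure: every divisor of
degree four is contained in exactly one octad. The projection from the secant of two points is a
plane sextic with at most `N` zeros, to which the inequality of Langer type for the lines spanned
by `N` points applies. The two facts together leave `N ≤ 2` only. If there are two points, the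
hyperplane through both tangents is the wanted one; if there is one, the hyperplane of fourth
order contact.
-/

set_option autoImplicit false

namespace Pool.Agent.Results.MP_90ca13_nt.GenusFive

open scoped LinearAlgebra.Projectivization
open Matrix

/-- The points in the projective four-space over `K` of the intersection of the three quadrics
`x ⬝ᵥ M i *ᵥ x = 0`. -/
def points {K : Type*} [Field K] (M : Fin 3 → Matrix (Fin 5) (Fin 5) K) :
    Set (ℙ K (Fin 5 → K)) :=
  {P | ∀ i, P.rep ⬝ᵥ M i *ᵥ P.rep = 0}

theorem result :
    ∀ K : IntermediateField ℚ (AlgebraicClosure ℚ),
      K = (⨆ (E : IntermediateField ℚ (AlgebraicClosure ℚ))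
            (_ : IsGalois ℚ E ∧ FiniteDimensional ℚ E ∧ IsSolvable (E ≃ₐ[ℚ] E)), E) →
      ∀ M : Fin 3 → Matrix (Fin 5) (Fin 5) K, (∀ i, (M i).IsSymm) →
        (∀ x : Fin 5 → K, x ≠ 0 → (∀ i, x ⬝ᵥ M i *ᵥ x = 0) →
          LinearIndependent K (fun i => M i *ᵥ x)) →
        (points M).Infinite ∨
          ((points M).ncard ≤ 2 ∧
            ((points M).Nonempty → ∃ h : Fin 5 → K, h ≠ 0 ∧
              ∀ z : Fin 5 → AlgebraicClosure ℚ, z ≠ 0 →
                (∀ i, z ⬝ᵥ (M i).map (algebraMap K (AlgebraicClosure ℚ)) *ᵥ z = 0) →
                ∑ j, algebraMap K (AlgebraicClosure ℚ) (h j) * z j = 0 →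
                ∃ P ∈ points M, ∃ c : AlgebraicClosure ℚ,
                  ∀ j, z j = c * algebraMap K (AlgebraicClosure ℚ) (P.rep j))) := by
  intro K hK M hM hind
  have hK' : K = Pool.Agent.H31.SX.Qs := hK
  subst hK'
  rcases Pool.Agent.H31.G5.g5 Pool.Agent.H31.SX.emb Pool.Agent.H31.SX.Qs_splits hM hind
    (AlgebraicClosure ℚ) with h | ⟨h1, h2⟩
  · exact Or.inl h
  · refine Or.inr ⟨h1, fun hne => ?_⟩
    obtain ⟨h, hh0, hh⟩ := h2 hne
    refine ⟨h, hh0, fun z hz0 hz1 hz2 => ?_⟩
    obtain ⟨P, hP, c, hc⟩ := hh z hz0 (funext hz1) hz2
    exact ⟨P, hP, c, fun j => congrFun hc j⟩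

end Pool.Agent.Results.MP_90ca13_nt.GenusFive
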