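import Pool.Agent.H31.SX.Main

/-!
# Plane curves of degree at most six over the maximal solvable extension of the rationals

`K` is the field of the frozen statement S17763, the compositum of all finite solvable Galois
extensions of `ℚ`. Let `F` be a form of degree at most six in three variables over `K`. Either
`F` has infinitely many zeros in the projective plane over `K`, or

* it has at most seven zeros there;
* all of them but at most one lie on one line;
* if `q` is a zero on the tangent at the zero `p` and `p` is not on the tangent at `q`, then the
  tangent at `p` has contact of order at least five with `F = 0` at `p`, or the tangent at `q` has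
  contact of order at least five at `q`.

The proof: a line over `K` which meets the curve in at least two points of `K` (counted with
multiplicity) meets it only in points of `K`, because the residual equation has degree at most
four. So in the finite case the secants and tangents of the set `S` of zeros meet the curve in
`S` only, and a secant with fewer than six points is the tangent at one of its points. An
inequality of Langer type, `3 * (sum over lines of the number of points) ≥ N (N + 3)` for `N`
points of which fewer than `2 N / 3` are on any line, proved by an elementary minimisation over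
the complex numbers, shows that all but one of the points are collinear.
-/

set_option autoImplicit false

namespace Pool.Agent.Results.MP_90ca13_nt.PlaneSextics

open Polynomial
open scoped LinearAlgebra.Projectivization

/-- The zeros of the form `F` in the projective plane over `K`. -/
def zeros {K : Type*} [Field K] (F : MvPolynomial (Fin 3) K) : Set (ℙ K (Fin 3 → K)) :=
  {P | MvPolynomial.eval P.rep F = 0}

/-- The derivative of `F` at `u` in the direction `w`, that is `∑ j, w j * (∂F / ∂x_j) (u)`. For
a zero `u` of `F` the zeros `w` of this linear form are the vectors on the tangent at `u`. -/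
noncomputable def slope {K : Type*} [Field K] (F : MvPolynomial (Fin 3) K) (u w : Fin 3 → K) : K :=
  ∑ j, MvPolynomial.eval u (MvPolynomial.pderiv j F) * w j

/-- The polynomial `F (u + X w)` in one variable `X`. It is divisible by `X ^ 5` if and only if
the line through `u` and `w` has contact of order at least five with `F = 0` at `u`. -/
noncomputable def restrict {K : Type*} [Field K] (F : MvPolynomial (Fin 3) K)
    (u w : Fin 3 → K) : K[X] :=
  MvPolynomial.aeval (fun j => C (u j) + X * C (w j)) F

theorem result :
    ∀ K : IntermediateField ℚ (AlgebraicClosure ℚ),
      K = (⨆ (E : IntermediateField ℚ (AlgebraicClosure ℚ))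
            (_ : IsGalois ℚ E ∧ FiniteDimensional ℚ E ∧ IsSolvable (E ≃ₐ[ℚ] E)), E) →
      ∀ n : ℕ, n ≤ 6 → ∀ F : MvPolynomial (Fin 3) K, F.IsHomogeneous n →
        (zeros F).Infinite ∨
          ((zeros F).ncard ≤ 7 ∧
            (∃ u : Fin 3 → K, u ≠ 0 ∧
              {P | P ∈ zeros F ∧ ∑ j, u j * P.rep j ≠ 0}.Subsingleton) ∧
            ∀ p q r : Fin 3 → K, MvPolynomial.eval p F = 0 → MvPolynomial.eval q F = 0 →
              slope F p q = 0 → slope F q p ≠ 0 → slope F q r = 0 →
              X ^ 5 ∣ restrict F p q ∨ X ^ 5 ∣ restrict F q r) := by
  intro K hK n hn F hF
  have hK' : K = Pool.Agent.H31.SX.Qs := hK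
  subst hK'
  rcases Pool.Agent.H31.SX.Qs_dichotomy hn hF with h | ⟨h1, ⟨u, hu, h2⟩, h3⟩
  · exact Or.inl h
  · refine Or.inr ⟨h1, ⟨u, hu, ?_⟩, h3⟩
    rintro P ⟨hP, hP'⟩ Q ⟨hQ, hQ'⟩
    rw [Fin.sum_univ_three] at hP' hQ'
    exact h2 ⟨hP, hP'⟩ ⟨hQ, hQ'⟩

end Pool.Agent.Results.MP_90ca13_nt.PlaneSextics
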