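import Pool.Agent.H3.SH.Cor
import Pool.Agent.H3.SH.Kf
import Pool.Agent.H8.SB.MainB4
import Pool.Agent.H8.SB.MainC
import Pool.Agent.H8.SB.Hyp
import Pool.Agent.H8.SD.Desc
import Pool.Agent.H31.SX.Solv

/-!
# Hypersurfaces of degree seven over the maximal solvable extension of the rationals

`K` is the field of the frozen statement S17763, the compositum of all finite solvable Galois extensions of `ℚ`, `L` its algebraic closure.

1. Let `X` be a smooth hypersurface of degree 7 in `P^n`, `n ≥ 5`, over `K` and `P` a `K`-point of `X`.  If some linear subspace of `P^n` of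
   dimension 4 (over `L`) which contains `P` contains no line of `X` through `P`, then the `K`-points are Zariski dense in `X`.
2. Let `X` be a smooth hypersurface of degree 7 in `P^5` over `K` which contains only finitely many lines (over `L`).  Then `X` has no
   `K`-point or the `K`-points are Zariski dense in `X`.
3. Let `F` be an irreducible polynomial over `K` of total degree at most 7 in `N` variables (not necessarily homogeneous, with any
   singularities), `P` a zero of `F` over `K` at which the gradient of `F` is not zero, `D_j` the derivatives of `F` at `P` and `T` the space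
   of tangent vectors.  The zeros of `F` over `K` are Zariski dense in the hypersurface `F = 0` in each of the following cases.
   (R) The quadratic form `D_2 (v, v)` has rank at least 4 on `T`, and the cubic form `D_3 (v, v, v)` on `T` is not of the form
       `l (v) ^ 3 + D_2 (v, v) m (v)` with linear forms `l`, `m` over `L`.
   (S) `N ≥ 5` and the lines which have contact of order at least 4 with `F = 0` at `P` form a smooth complete intersection: for every
       `v ≠ 0` with `D_1 (v) = D_2 (v, v) = D_3 (v, v, v) = 0` the differentials of the three forms are linearly independent.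
   (S4) `N = 4`, the same condition, and no line through `P` is contained in `F = 0`.

A tangent line at a `K`-point has up to five further points on `X`, and equations of degree five cannot be solved over `K`; so the proofs use
the asymptotic lines, which have contact of order at least three and at most four further points.

Proof of 1 and 2 (helper3, helper83): for `n = 5`, if `P` is on finitely many lines of `X`, two steps along asymptotic lines lead from `P` to the
general point of `X` (five forms in six variables have a common zero), and density over `K` is transferred to the points over `L` step by step;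
the general case follows by slicing with a general linear subspace of dimension 5 through `P`.
Proof of 3 (helper8): let `Q` be a `K`-point near `P`.  Through every direction `u` over `K` on which the quadratic and the cubic form vanish there
is a curve `v (y)` of directions on which the quadratic form vanishes; `F (Q + t v (y)) = t ^ 3 e (t, y)`, `e` has degree at most 4 in `t`, and
the `K`-points are dense on the branch of `e = 0` through the origin.  So every polynomial vanishing at the `K`-points has derivative `0` in the
direction `u`, and these directions span the tangent space: in case (R) otherwise the cubic form would be a cube on the quadric (chains of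
isotropic vectors), in case (S) isotropic planes are moved by Siegel transvections, in case (S4) the conic of isotropic directions contains at
least five of them over `L`.  The conditions at `P` are open (Nullstellensatz and Nakayama).  An induction on the degree of the elimination ideal finishes the proof.
-/

set_option autoImplicit false

namespace Pool.Agent.Results.MP_90ca13_nt.SepticHypersurfaces

open MvPolynomial

variable {K : IntermediateField ℚ (AlgebraicClosure ℚ)}

/-- The hypersurface `F = 0` is smooth: the partial derivatives of `F` have no common zero `x ≠ 0` over the algebraic closure. -/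
def IsSmooth {N : ℕ} (F : MvPolynomial (Fin N) K) : Prop :=
  ∀ x : Fin N → AlgebraicClosure ℚ, x ≠ 0 → ∃ i, aeval x (pderiv i F) ≠ 0

/-- The point with coordinates in the algebraic closure. -/
def toL {N : ℕ} (P : Fin N → K) : Fin N → AlgebraicClosure ℚ := fun i => (P i : AlgebraicClosure ℚ)

/-- `W` is a line of projective space which is contained in the hypersurface `F = 0`. -/
def IsLineOn {N : ℕ} (F : MvPolynomial (Fin N) K) (W : Submodule (AlgebraicClosure ℚ) (Fin N → AlgebraicClosure ℚ)) : Prop :=
  Module.finrank (AlgebraicClosure ℚ) W = 2 ∧ ∀ x ∈ W, aeval x F = 0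

/-- The derivative of `F` at `P` in the direction `v`. -/
noncomputable def D1 {N : ℕ} (F : MvPolynomial (Fin N) K) (P : Fin N → K) (v : Fin N → AlgebraicClosure ℚ) : AlgebraicClosure ℚ :=
  ∑ i, (eval P (pderiv i F) : AlgebraicClosure ℚ) * v i

/-- The second derivative of `F` at `P` in the directions `v, w`. -/
noncomputable def D2 {N : ℕ} (F : MvPolynomial (Fin N) K) (P : Fin N → K) (v w : Fin N → AlgebraicClosure ℚ) : AlgebraicClosure ℚ :=
  ∑ i, ∑ j, (eval P (pderiv i (pderiv j F)) : AlgebraicClosure ℚ) * (v i * w j)

/-- The third derivative of `F` at `P` in the directions `u, v, w`. -/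
noncomputable def D3 {N : ℕ} (F : MvPolynomial (Fin N) K) (P : Fin N → K) (u v w : Fin N → AlgebraicClosure ℚ) : AlgebraicClosure ℚ :=
  ∑ i, ∑ j, ∑ k, (eval P (pderiv i (pderiv j (pderiv k F))) : AlgebraicClosure ℚ) * (u i * v j * w k)

/-- The three forms `D1 v`, `D2 v v`, `D3 v v v` in `v` define a smooth complete intersection: at every common zero `v ≠ 0` the linear forms
`D1 w`, `D2 v w`, `D3 v v w` in `w` are linearly independent. -/
def HasSmoothContact {N : ℕ} (F : MvPolynomial (Fin N) K) (P : Fin N → K) : Prop :=
  ∀ v : Fin N → AlgebraicClosure ℚ, v ≠ 0 → D1 F P v = 0 → D2 F P v v = 0 → D3 F P v v v = 0 →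
    ∀ a b c : AlgebraicClosure ℚ, (∀ w, a * D1 F P w + b * D2 F P v w + c * D3 F P v v w = 0) → a = 0 ∧ b = 0 ∧ c = 0

/-- `w` is a tangent vector at `P`. -/
def IsTangent {N : ℕ} (F : MvPolynomial (Fin N) K) (P w : Fin N → K) : Prop :=
  ∑ i, eval P (pderiv i F) * w i = 0

/-- The Hessian form of `F` at `P` (the second derivative for vectors over `K`). -/
noncomputable def hessian {N : ℕ} (F : MvPolynomial (Fin N) K) (P u w : Fin N → K) : K :=
  ∑ i, ∑ j, u i * w j * eval P (pderiv i (pderiv j F))

/-- The matrix of the values of the Hessian form on four vectors `a k` and four vectors `b l`. -/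
noncomputable def gram {N : ℕ} (F : MvPolynomial (Fin N) K) (P : Fin N → K) (a b : Fin 4 → Fin N → K) : Matrix (Fin 4) (Fin 4) K :=
  Matrix.of fun k l => hessian F P (a k) (b l)

/-- The Hessian form has rank at least 4 on the tangent space: some `4 × 4` minor is not zero. -/
def HasHessianRankFour {N : ℕ} (F : MvPolynomial (Fin N) K) (P : Fin N → K) : Prop :=
  ∃ a b : Fin 4 → Fin N → K, (∀ k, IsTangent F P (a k)) ∧ (∀ k, IsTangent F P (b k)) ∧ (gram F P a b).det ≠ 0

/-- The linear form with the coefficients `l`. -/
noncomputable def linearForm {N : ℕ} (l v : Fin N → AlgebraicClosure ℚ) : AlgebraicClosure ℚ := ∑ i, l i * v i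

/-- The cubic form `D3 v v v` is not `l ^ 3 + D2 v v * m` on the tangent space, `l` and `m` linear forms over the algebraic closure. -/
def IsNotCube {N : ℕ} (F : MvPolynomial (Fin N) K) (P : Fin N → K) : Prop :=
  ∀ l m : Fin N → AlgebraicClosure ℚ, ∃ v : Fin N → AlgebraicClosure ℚ, D1 F P v = 0 ∧
    D3 F P v v v ≠ linearForm l v ^ 3 + D2 F P v v * linearForm m v

/-- No line through `P` is contained in `F = 0` (in affine space). -/
def HasNoLine {N : ℕ} (F : MvPolynomial (Fin N) K) (P : Fin N → K) : Prop :=
  ∀ v : Fin N → AlgebraicClosure ℚ, v ≠ 0 → ∃ t : AlgebraicClosure ℚ, aeval (fun i => (P i : AlgebraicClosure ℚ) + t * v i) F ≠ 0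

/-- (R), or (S) and `N ≥ 5`, or (S), `N = 4` and no line through `P` is contained in `F = 0`. -/
def HasGoodContact {N : ℕ} (F : MvPolynomial (Fin N) K) (P : Fin N → K) : Prop :=
  (HasHessianRankFour F P ∧ IsNotCube F P) ∨ (5 ≤ N ∧ HasSmoothContact F P) ∨ (N = 4 ∧ HasSmoothContact F P ∧ HasNoLine F P)

/-- Some linear subspace of projective space of dimension 4 which contains `P` contains no line of the hypersurface `F = 0` through `P`. -/
def HasLineFreeSubspace {N : ℕ} (F : MvPolynomial (Fin N) K) (P : Fin N → K) : Prop :=
  ∃ U : Submodule (AlgebraicClosure ℚ) (Fin N → AlgebraicClosure ℚ), Module.finrank (AlgebraicClosure ℚ) U = 5 ∧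
    toL P ∈ U ∧ ∀ W ≤ U, toL P ∈ W → ¬ IsLineOn F W

/-- The zeros of `F` over `K` are Zariski dense in the hypersurface `F = 0` over the algebraic closure. -/
def HasDenseZeros {N : ℕ} (F : MvPolynomial (Fin N) K) : Prop :=
  ∀ G : MvPolynomial (Fin N) (AlgebraicClosure ℚ),
    (∀ x : Fin N → K, eval x F = 0 → eval (fun i => (x i : AlgebraicClosure ℚ)) G = 0) →
      map (algebraMap K (AlgebraicClosure ℚ)) F ∣ G

theorem result :
    ∀ K : IntermediateField ℚ (AlgebraicClosure ℚ),
      K = (⨆ (E : IntermediateField ℚ (AlgebraicClosure ℚ))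
            (_ : IsGalois ℚ E ∧ FiniteDimensional ℚ E ∧ IsSolvable (E ≃ₐ[ℚ] E)), E) →
      (∀ n : ℕ, 5 ≤ n → ∀ (F : MvPolynomial (Fin (n + 1)) K) (P : Fin (n + 1) → K), F.IsHomogeneous 7 → IsSmooth F →
        P ≠ 0 → eval P F = 0 → HasLineFreeSubspace F P → HasDenseZeros F) ∧
      (∀ F : MvPolynomial (Fin 6) K, F.IsHomogeneous 7 → IsSmooth F → {W | IsLineOn F W}.Finite →
        (∃ P : Fin 6 → K, P ≠ 0 ∧ eval P F = 0) → HasDenseZeros F) ∧
      (∀ (N : ℕ) (F : MvPolynomial (Fin N) K) (P : Fin N → K), F.totalDegree ≤ 7 → Irreducible F → eval P F = 0 →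
        (∃ i, eval P (pderiv i F) ≠ 0) → HasGoodContact F P → HasDenseZeros F) := by
  intro K hK
  have hK' : K = Pool.Agent.H31.SX.Qs := hK
  subst hK'
  have hsol : Pool.Agent.H8.SD.Sol Pool.Agent.H31.SX.Qs := by
    intro p hp1 hp4
    obtain ⟨x, hx⟩ := (Pool.Agent.H31.SX.Qs_splits p hp4).exists_eval_eq_zero (by
      intro h
      exact hp1 (Polynomial.natDegree_eq_of_degree_eq_some h))
    exact ⟨x, hx⟩
  have hroots : Pool.Agent.H3.SH.Roots Pool.Agent.H31.SX.Qs (AlgebraicClosure ℚ) := Pool.Agent.H3.SH.roots_Qs
  have h1 : ∀ n : ℕ, 5 ≤ n → ∀ (F : MvPolynomial (Fin (n + 1)) Pool.Agent.H31.SX.Qs) (P : Fin (n + 1) → Pool.Agent.H31.SX.Qs),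
      F.IsHomogeneous 7 → IsSmooth F → P ≠ 0 → eval P F = 0 → HasLineFreeSubspace F P → HasDenseZeros F := by
    intro n hn F P hF hs hP0 hP hU G hG
    obtain ⟨U, hU1, hU2, hU3⟩ := hU
    refine Pool.Agent.H3.SH.main_all hroots (by omega) hF hs hP0 hP ⟨U, hU1, hU2, fun W hW1 hW2 hW3 => ?_⟩ hG
    by_contra hcon
    push Not at hcon
    exact hU3 W hW3 hW2 ⟨hW1, hcon⟩
  refine ⟨h1, fun F hF hs hfin hP => ?_, fun N F P hF hirr hP hgr hcase => ?_⟩
  · obtain ⟨P, hP0, hP1⟩ := hP
    obtain ⟨U, hU1, hU2, hU3⟩ := Pool.Agent.H8.SB.exists_hyperplane (p := toL P) (d := 5) (by norm_num) (by simp) hfin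
      (fun W hW => hW.1)
    exact h1 5 le_rfl F P hF hs hP0 hP1 ⟨U, hU1, hU2, fun W hWU _ hW => hU3 W hW hWU⟩
  · obtain ⟨i, hi⟩ := hgr
    obtain ⟨n, rfl⟩ : ∃ n, N = n + 1 := ⟨N - 1, by have := i.2; omega⟩
    intro G hG
    refine Pool.Agent.H8.SD.dvd_map_of_forall (fun G hG => ?_) hG
    have hgr' : Pool.Agent.H8.SD.grd F P ≠ 0 := Function.ne_iff.2 ⟨i, hi⟩
    rcases hcase with ⟨⟨a, b, ha, hb, hr⟩, hnc⟩ | ⟨hN, hS⟩ | ⟨hN, hS, hl⟩
    · exact Pool.Agent.H8.SB.main_cube (L := AlgebraicClosure ℚ) hsol hF hirr hP hgr' ha hb hr hnc hG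
    · exact Pool.Agent.H8.SB.main_seven (L := AlgebraicClosure ℚ) hsol (by omega) hF hirr hP hgr' hS hG
    · obtain rfl : n = 3 := by omega
      exact Pool.Agent.H8.SB.main_seven_four (L := AlgebraicClosure ℚ) hsol hF hirr hP hgr' hS hl hG

end Pool.Agent.Results.MP_90ca13_nt.SepticHypersurfaces
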