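import Pool.Agent.H8.SD.Cor
import Pool.Agent.H8.SD.Desc
import Pool.Agent.H8.SD.MainA
import Pool.Agent.H31.SX.Solv

/-!
# Hypersurfaces of degree at most six over the maximal solvable extension of the rationals

`K` is the field of the frozen statement S17763, the compositum of all finite solvable Galois extensions of `ℚ`.  Let `F` be a polynomial
over `K`, `X` the hypersurface `F = 0`, `P` a `K`-point of `X` at which the gradient is not zero and `T` the tangent hyperplane at `P`.  The
`K`-points are Zariski dense in `X` in each of the following cases.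

1. `F` is irreducible of total degree at most six, not necessarily homogeneous, and the Hessian form of `F` at `P` has rank at least two
   on `T`.
2. `F` is an irreducible form of degree `d`, `3 ≤ d ≤ 6`, `φ` is an irreducible factor over `K` of the restriction of `F` to `T` which is not
   a cone with vertex `P`, and the gradient of `F` is not proportional to a constant vector on `φ = 0`.
3. `F` is a form of degree `d`, `3 ≤ d ≤ 6`, its restriction to `T` is irreducible over `K` and `P` is not a star point.
4. `X` is smooth of degree `d`, `3 ≤ d ≤ 6`, and dimension at least two, and `P` is not a star point.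

Proof of 1: let `Q` be a `K`-point near `P`, `H` the Hessian form at `Q`, `u` and `w` tangent vectors with `H (u, u) = 0` and `H (u, w) ≠ 0`.
Then `F (Q + t (u + y w)) = t ^ 2 * e (t, y)` where `e` has degree at most four in `t` and a simple zero at `(0, 0)`; all polynomials of
degree at most four over `K` have their roots in `K`, so the `K`-points are dense on the branch of `e = 0` through `(0, 0)`, and every
polynomial vanishing at the `K`-points of `X` has derivative `0` in the direction `u`.  These `u` span the tangent space.  An induction on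
the degree of the elimination ideal finishes the proof.

Proof of 2, 3 and 4: the lines through `P` in `T` meet `X` in at most four further points; so the `K`-points are dense in the component `V`
given by `φ = 0`, and similarly for the `K`-points `Q` of `V` in place of `P`.  If the `K`-points were not dense in `X`, only finitely many
components could occur; so for all `Q` of a dense subset of `V` the tangent hyperplanes would contain the same variety of codimension two.
This is excluded by a study of the Gauss map on `V` (characteristic 0), which also shows that the star points are not dense in `V`.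
-/

set_option autoImplicit false

namespace Pool.Agent.Results.MP_90ca13_nt.SexticHypersurfaces

open MvPolynomial

variable {K : IntermediateField ℚ (AlgebraicClosure ℚ)}

/-- The hypersurface `F = 0` is smooth: the partial derivatives of `F` have no common zero `x ≠ 0` over the algebraic closure. -/
def IsSmooth {N : ℕ} (F : MvPolynomial (Fin N) K) : Prop :=
  ∀ x : Fin N → AlgebraicClosure ℚ, x ≠ 0 → ∃ i, aeval x (pderiv i F) ≠ 0

/-- `w` is a tangent vector at `P`. -/
def IsTangent {N : ℕ} (F : MvPolynomial (Fin N) K) (P w : Fin N → K) : Prop :=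
  ∑ i, eval P (pderiv i F) * w i = 0

/-- The Hessian form of `F` at `P`. -/
noncomputable def hessian {N : ℕ} (F : MvPolynomial (Fin N) K) (P u w : Fin N → K) : K :=
  ∑ i, ∑ j, u i * w j * eval P (pderiv i (pderiv j F))

/-- The Hessian form of `F` at `P` has rank at least two on the tangent space: some `2 × 2` minor is not zero. -/
def HasHessianRankTwo {N : ℕ} (F : MvPolynomial (Fin N) K) (P : Fin N → K) : Prop :=
  ∃ a b a' b' : Fin N → K, IsTangent F P a ∧ IsTangent F P b ∧ IsTangent F P a' ∧ IsTangent F P b' ∧
    hessian F P a a' * hessian F P b b' - hessian F P a b' * hessian F P b a' ≠ 0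

/-- `P` is a star point: `F (P + v) = F v` for all `v` in the tangent hyperplane at `P`; for a zero `P` this means that the section of the
hypersurface `F = 0` with its tangent hyperplane at `P` is a cone with vertex `P`. -/
def IsStarPoint {N : ℕ} (F : MvPolynomial (Fin N) K) (P : Fin N → K) : Prop :=
  ∀ v : Fin N → K, ∑ i, eval P (pderiv i F) * v i = 0 → eval (P + v) F = eval v F

/-- `v` is a basis of the tangent hyperplane `{w | ∑ i, ∂F/∂x_i (P) * w i = 0}`, and `v 0 = P`. -/
structure TangentBasis {m : ℕ} (F : MvPolynomial (Fin (m + 2)) K) (P : Fin (m + 2) → K)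
    (v : Fin (m + 1) → Fin (m + 2) → K) : Prop where
  indep : LinearIndependent K v
  span : ∀ w : Fin (m + 2) → K,
    ∑ i, eval P (pderiv i F) * w i = 0 ↔ w ∈ Submodule.span K (Set.range v)
  first : v 0 = P

/-- `G (y_0 v_0 + ... + y_m v_m)` as a polynomial in `y_0, ..., y_m`. -/
noncomputable def restrict {n k : ℕ} (v : Fin k → Fin n → K) (G : MvPolynomial (Fin n) K) : MvPolynomial (Fin k) K :=
  aeval (fun i => ∑ j, C (v j i) * X j) G

/-- The zeros of `F` over `K` are Zariski dense in the hypersurface `F = 0` over the algebraic closure. -/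
def HasDenseZeros {N : ℕ} (F : MvPolynomial (Fin N) K) : Prop :=
  ∀ G : MvPolynomial (Fin N) (AlgebraicClosure ℚ),
    (∀ x : Fin N → K, eval x F = 0 → eval (fun i => (x i : AlgebraicClosure ℚ)) G = 0) →
      map (algebraMap K (AlgebraicClosure ℚ)) F ∣ G

theorem result :
    ∀ K : IntermediateField ℚ (AlgebraicClosure ℚ),
      K = (⨆ (E : IntermediateField ℚ (AlgebraicClosure ℚ))
            (_ : IsGalois ℚ E ∧ FiniteDimensional ℚ E ∧ IsSolvable (E ≃ₐ[ℚ] E)), E) →
      (∀ (N : ℕ) (F : MvPolynomial (Fin N) K) (P : Fin N → K),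
        F.totalDegree ≤ 6 → Irreducible F → eval P F = 0 → (∃ i, eval P (pderiv i F) ≠ 0) → HasHessianRankTwo F P →
          HasDenseZeros F) ∧
      ∀ d : ℕ, 3 ≤ d → d ≤ 6 →
        (∀ (m : ℕ) (F : MvPolynomial (Fin (m + 2)) K) (P : Fin (m + 2) → K) (v : Fin (m + 1) → Fin (m + 2) → K),
          F.IsHomogeneous d → eval P F = 0 → TangentBasis F P v →
            (∀ φ : MvPolynomial (Fin (m + 1)) K, Irreducible F → Irreducible φ → φ ∣ restrict v F → pderiv 0 φ ≠ 0 →
              (∀ c : Fin (m + 2) → K, c ≠ 0 → ∃ a b : Fin (m + 2),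
                ¬ φ ∣ restrict v (pderiv a F) * C (c b) - restrict v (pderiv b F) * C (c a)) → HasDenseZeros F) ∧
            (Irreducible (restrict v F) → ¬ IsStarPoint F P → HasDenseZeros F)) ∧
        (∀ n : ℕ, 3 ≤ n → ∀ F : MvPolynomial (Fin (n + 1)) K, F.IsHomogeneous d → IsSmooth F →
          (∃ P : Fin (n + 1) → K, P ≠ 0 ∧ eval P F = 0 ∧ ¬ IsStarPoint F P) → HasDenseZeros F) := by
  intro K hK
  have hK' : K = Pool.Agent.H31.SX.Qs := hK
  subst hK'
  have hsol : Pool.Agent.H8.SD.Sol Pool.Agent.H31.SX.Qs := by
    intro p hp1 hp4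
    obtain ⟨x, hx⟩ := (Pool.Agent.H31.SX.Qs_splits p hp4).exists_eval_eq_zero (by
      intro h
      exact hp1 (Polynomial.natDegree_eq_of_degree_eq_some h))
    exact ⟨x, hx⟩
  refine ⟨fun N F P hF hirr hP hgr hr => ?_, fun d hd hd6 => ⟨fun m F P v hF hP hv => ?_, fun n hn F hF hs hP => ?_⟩⟩
  · obtain ⟨a, b, a', b', ha, hb, ha', hb', hne⟩ := hr
    obtain ⟨i, hi⟩ := hgr
    obtain ⟨n, rfl⟩ : ∃ n, N = n + 1 := ⟨N - 1, by have := i.2; omega⟩
    intro G hG
    refine Pool.Agent.H8.SD.dvd_map_of_forall (fun G hG => ?_) hG
    exact Pool.Agent.H8.SD.main_rank hsol hF hirr hP (Function.ne_iff.2 ⟨i, hi⟩) ⟨a, a', b, b', ha, ha', hb, hb', hne⟩ hG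
  · have hM := Pool.Agent.H8.SD.par_of_basis (F := F) (P := P) hv.indep hv.span hv.first
    refine ⟨fun φ hFirr hφ hdvd hp hN => ?_, fun hirr hstar => ?_⟩
    · intro G hG
      refine Pool.Agent.H8.SD.dvd_map_of_forall (fun G hG => ?_) hG
      exact Pool.Agent.H8.SD.main_gen hsol hd hd6 hF hFirr
        (Pool.Agent.H8.SD.good_of_factor hd hd6 hF hFirr hP hM hφ hdvd hp) hN hG
    · intro G hG
      refine Pool.Agent.H8.SD.dvd_map_of_forall (fun G hG => ?_) hG
      exact Pool.Agent.H8.SD.main_section hsol hd hd6 hF hP hM hirr hstar hG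
  · obtain ⟨P, hP0, hP1, hP2⟩ := hP
    obtain ⟨m, rfl⟩ : ∃ m, n = m + 1 := ⟨n - 1, by omega⟩
    intro G hG
    refine Pool.Agent.H8.SD.dvd_map_of_forall (fun G hG => ?_) hG
    exact Pool.Agent.H8.SD.main_smooth (L := AlgebraicClosure ℚ) hsol (by omega) hd hd6 hF hs hP0 hP1 hP2 hG

end Pool.Agent.Results.MP_90ca13_nt.SexticHypersurfaces
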